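import Pool.Agent.Lib.MP_f78106_gt.KFoldB
import Pool.Agent.Lib.MP_f78106_gt.Stmt

open Pool.Agent.Lib.MP_f78106_gt.S

/-- For every convex body in `ℂⁿ` and every `k ≥ 1`, the min-max values `c_k` of Clarke's dual
functional satisfy `c_k ≤ k c_1 < ∞`. -/
theorem Pool.Agent.Results.MP_f78106_gt.ConvexBodyBound.result (n : ℕ) (hn : 1 ≤ n)
    (Ω : Set (EuclideanSpace ℂ (Fin n))) (hc : IsCompact Ω) (hv : Convex ℝ Ω)
    (h0 : 0 ∈ interior Ω) (k : ℕ) (hk : 1 ≤ k) :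
    cap Ω k ≤ k * cap Ω 1 ∧ k * cap Ω 1 < ⊤ := by
  have _ := hv
  have hI : ∀ (L : ℝ) (k : ℕ), IndexGE Hil shift (sublevel Ω L) k ↔
      Pool.Agent.Lib.MP_f78106_gt.IndexGE Pool.Agent.Lib.MP_f78106_gt.shift
        (Pool.Agent.Lib.MP_f78106_gt.sublevel Ω L) k := fun _ _ => Iff.rfl
  have he : ∀ k : ℕ, cap Ω k = Pool.Agent.Lib.MP_f78106_gt.cap Ω k := fun k => by
    simp only [cap, Pool.Agent.Lib.MP_f78106_gt.cap, hI]
  simp only [he]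
  obtain ⟨a, b⟩ :=
    Pool.Agent.Lib.MP_f78106_gt.KFold.cap_le_mul hn hc ⟨0, interior_subset h0⟩ hk
  exact ⟨a, ENNReal.mul_lt_top (ENNReal.natCast_lt_top k) b⟩
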