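import Pool.Agent.Lib.MP_f78106_gt.Main
import Pool.Agent.Lib.MP_f78106_gt.Stmt

open Pool.Agent.Lib.MP_f78106_gt.S Filter

/-- For a uniformly convex domain in `ℂⁿ`, `n ≥ 2`, the min-max values `c_k` of Clarke's dual
functional satisfy `limsup c_k / k < c_1 < ∞`. -/
theorem Pool.Agent.Results.MP_f78106_gt.LinearGap.result (n : ℕ) (hn : 2 ≤ n)
    (Ω : Set (EuclideanSpace ℂ (Fin n))) (hΩ : UnifConvex Ω) :
    limsup (fun k : ℕ => cap Ω k / k) atTop < cap Ω 1 ∧ cap Ω 1 < ⊤ := by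
  have hI : ∀ (L : ℝ) (k : ℕ), IndexGE Hil shift (sublevel Ω L) k ↔
      Pool.Agent.Lib.MP_f78106_gt.IndexGE Pool.Agent.Lib.MP_f78106_gt.shift
        (Pool.Agent.Lib.MP_f78106_gt.sublevel Ω L) k := fun _ _ => Iff.rfl
  have hc : ∀ k : ℕ, cap Ω k = Pool.Agent.Lib.MP_f78106_gt.cap Ω k := fun k => by
    simp only [cap, Pool.Agent.Lib.MP_f78106_gt.cap, hI]
  simp only [hc]
  exact Pool.Agent.Lib.MP_f78106_gt.linear_gap n hn Ω hΩ
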